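import Pool.Agent.Helper62K1.IsoApi

/-!
# The two point inequality of Bobkov
-/

set_option autoImplicit false

namespace Pool.Agent.H62

open Set
open Pool.Agent.R755.Tr
open Pool.Agent.H460BZ (φ φ_eq φ_cont φ_nonneg)

namespace TP

theorem nonneg_of_deriv {f f' : ℝ → ℝ} {x : ℝ} (hx : 0 ≤ x) (h0 : 0 ≤ f 0)
    (hd : ∀ y ∈ Icc (0 : ℝ) x, HasDerivAt f (f' y) y)
    (h' : ∀ y ∈ Icc (0 : ℝ) x, 0 ≤ f' y) : 0 ≤ f x := by
  have hm : MonotoneOn f (Icc 0 x) := by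
    refine monotoneOn_of_deriv_nonneg (convex_Icc 0 x)
      (fun y hy => (hd y hy).continuousAt.continuousWithinAt)
      (fun y hy => (hd y (interior_subset hy)).differentiableAt.differentiableWithinAt) ?_
    intro y hy
    rw [(hd y (interior_subset hy)).deriv]
    exact h' y (interior_subset hy)
  exact h0.trans (hm ⟨le_rfl, hx⟩ ⟨hx, le_rfl⟩ hx)

section
variable {v : ℝ} (h0 : 0 < v) (h1 : v < 1)
include h0 h1

theorem dJ : HasDerivAt (fun v => Iso v ^ 2) (-2 * (Iso v * Ps v)) v := by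
  have := (hasDerivAt_Iso h0 h1).pow 2
  refine this.congr_deriv ?_
  simp
  ring

theorem dJ' : HasDerivAt (fun v => -2 * (Iso v * Ps v)) (2 * Ps v ^ 2 - 2) v := by
  have hI := (Iso_pos h0 h1).ne'
  have := ((hasDerivAt_Iso h0 h1).mul (hasDerivAt_Ps h0 h1)).const_mul (-2)
  refine this.congr_deriv ?_
  field_simp
  ring

theorem dK : HasDerivAt (fun v => Ps v ^ 2) (2 * (Ps v / Iso v)) v := by
  have := (hasDerivAt_Ps h0 h1).pow 2
  refine this.congr_deriv ?_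
  simp
  ring

theorem dK' : HasDerivAt (fun v => 2 * (Ps v / Iso v)) (2 * ((1 + Ps v ^ 2) / Iso v ^ 2)) v := by
  have hI := (Iso_pos h0 h1).ne'
  have := ((hasDerivAt_Ps h0 h1).div (hasDerivAt_Iso h0 h1) hI).const_mul 2
  refine this.congr_deriv ?_
  field_simp
  ring

end

theorem shift {f f' : ℝ → ℝ} {c y : ℝ} (h : HasDerivAt f (f' (c + y)) (c + y)) :
    HasDerivAt (fun y => f (c + y)) (f' (c + y)) y := by
  exact h.comp_const_add c y

theorem shift' {f f' : ℝ → ℝ} {c y : ℝ} (h : HasDerivAt f (f' (c - y)) (c - y)) :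
    HasDerivAt (fun y => f (c - y)) (-(f' (c - y))) y := by
  exact h.comp_const_sub c y

section
variable {c x : ℝ} (hx : 0 ≤ x) (h1 : 0 < c - x) (h2 : c + x < 1)
include hx h1 h2

theorem rng {y : ℝ} (hy : y ∈ Icc (0 : ℝ) x) : (0 < c + y ∧ c + y < 1) ∧ (0 < c - y ∧ c - y < 1) := by
  obtain ⟨a, b⟩ := hy
  refine ⟨⟨by linarith, by linarith⟩, ⟨by linarith, by linarith⟩⟩

theorem K_mid : 2 * Ps c ^ 2 ≤ Ps (c + x) ^ 2 + Ps (c - x) ^ 2 := by
  have step : ∀ x', 0 ≤ x' → x' ≤ x →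
      0 ≤ 2 * (Ps (c + x') / Iso (c + x')) + -(2 * (Ps (c - x') / Iso (c - x'))) := by
    intro x' hx' hxx
    refine nonneg_of_deriv (f := fun y => 2 * (Ps (c + y) / Iso (c + y)) +
      -(2 * (Ps (c - y) / Iso (c - y)))) (f' := fun y => 2 * ((1 + Ps (c + y) ^ 2) / Iso (c + y) ^ 2) +
      -(-(2 * ((1 + Ps (c - y) ^ 2) / Iso (c - y) ^ 2)))) hx' ?_ ?_ ?_
    · simp
    · intro y hy
      obtain ⟨⟨a1, a2⟩, a3, a4⟩ := rng hx h1 h2 (y := y) ⟨hy.1, hy.2.trans hxx⟩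
      exact (shift (f := fun v => 2 * (Ps v / Iso v)) (f' := fun v => 2 * ((1 + Ps v ^ 2) / Iso v ^ 2))
        (dK' a1 a2)).add (shift' (f := fun v => 2 * (Ps v / Iso v))
        (f' := fun v => 2 * ((1 + Ps v ^ 2) / Iso v ^ 2)) (dK' a3 a4)).neg
    · intro y hy
      rw [neg_neg]
      positivity
  have := nonneg_of_deriv (f := fun y => (Ps (c + y) ^ 2 + Ps (c - y) ^ 2) - 2 * Ps c ^ 2)
    (f' := fun y => 2 * (Ps (c + y) / Iso (c + y)) + -(2 * (Ps (c - y) / Iso (c - y)))) hx ?_ ?_ ?_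
  · linarith
  · simp only [add_zero, sub_zero]
    linarith
  · intro y hy
    obtain ⟨⟨a1, a2⟩, a3, a4⟩ := rng hx h1 h2 hy
    exact ((shift (f := fun v => Ps v ^ 2) (f' := fun v => 2 * (Ps v / Iso v)) (dK a1 a2)).add
      (shift' (f := fun v => Ps v ^ 2) (f' := fun v => 2 * (Ps v / Iso v)) (dK a3 a4))).sub_const _
  · intro y hy
    exact step y hy.1 hy.2

theorem claim1 : 2 * Iso c ^ 2 + 2 * x ^ 2 * Ps c ^ 2 ≤ Iso (c + x) ^ 2 + Iso (c - x) ^ 2 + 2 * x ^ 2 := by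
  have step : ∀ x', 0 ≤ x' → x' ≤ x →
      0 ≤ (-2 * (Iso (c + x') * Ps (c + x')) + -(-2 * (Iso (c - x') * Ps (c - x')))) +
        (4 * (1 - Ps c ^ 2)) * x' := by
    intro x' hx' hxx
    refine nonneg_of_deriv (f := fun y => (-2 * (Iso (c + y) * Ps (c + y)) +
      -(-2 * (Iso (c - y) * Ps (c - y)))) + (4 * (1 - Ps c ^ 2)) * y)
      (f' := fun y => ((2 * Ps (c + y) ^ 2 - 2) + -(-(2 * Ps (c - y) ^ 2 - 2))) +
        (4 * (1 - Ps c ^ 2)) * 1) hx' ?_ ?_ ?_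
    · simp
    · intro y hy
      obtain ⟨⟨a1, a2⟩, a3, a4⟩ := rng hx h1 h2 (y := y) ⟨hy.1, hy.2.trans hxx⟩
      exact ((shift (f := fun v => -2 * (Iso v * Ps v)) (f' := fun v => 2 * Ps v ^ 2 - 2)
        (dJ' a1 a2)).add (shift' (f := fun v => -2 * (Iso v * Ps v))
        (f' := fun v => 2 * Ps v ^ 2 - 2) (dJ' a3 a4)).neg).add
        ((hasDerivAt_id y).const_mul (4 * (1 - Ps c ^ 2)))
    · intro y hy
      have := K_mid (c := c) (x := y) hy.1 (by linarith [hy.2]) (by linarith [hy.2])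
      nlinarith
  have := nonneg_of_deriv (f := fun y => (Iso (c + y) ^ 2 + Iso (c - y) ^ 2 - 2 * Iso c ^ 2) +
      (2 * (1 - Ps c ^ 2)) * y ^ 2)
    (f' := fun y => (-2 * (Iso (c + y) * Ps (c + y)) + -(-2 * (Iso (c - y) * Ps (c - y)))) +
        (2 * (1 - Ps c ^ 2)) * (2 * y)) hx ?_ ?_ ?_
  · nlinarith
  · simp only [add_zero, sub_zero]
    nlinarith
  · intro y hy
    obtain ⟨⟨a1, a2⟩, a3, a4⟩ := rng hx h1 h2 hy
    have hsq : HasDerivAt (fun y : ℝ => y ^ 2) (2 * y) y := by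
      have := hasDerivAt_pow 2 y
      simpa using this
    exact (((shift (f := fun v => Iso v ^ 2) (f' := fun v => -2 * (Iso v * Ps v)) (dJ a1 a2)).add
      (shift' (f := fun v => Iso v ^ 2) (f' := fun v => -2 * (Iso v * Ps v)) (dJ a3 a4))).sub_const
      (2 * Iso c ^ 2)).add (hsq.const_mul (2 * (1 - Ps c ^ 2)))
  · intro y hy
    have := step y hy.1 hy.2
    linarith

end

theorem Ps_mono' {a b : ℝ} (ha : 0 < a) (hab : a ≤ b) (hb : b < 1) : Ps a ≤ Ps b := by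
  have h3 := Ph_Ps ha (hab.trans_lt hb)
  have h4 := Ph_Ps (ha.trans_le hab) hb
  by_contra hcon
  push Not at hcon
  have := Ph_strict hcon
  rw [h3, h4] at this
  linarith

theorem K_comp {c x : ℝ} (hx : 0 ≤ x) (h1 : 0 < c - x) (h2 : c + x < 1) (hc : c ≤ 1 / 2) :
    Ps (c - x) ≤ Ps (c + x) ∧ Ps (c + x) ≤ - Ps (c - x) := by
  refine ⟨Ps_mono' h1 (by linarith) h2, ?_⟩
  rw [← Ps_symm h1 (by linarith)]
  exact Ps_mono' (by linarith) (by linarith) (by linarith)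

theorem K_comp' {c x : ℝ} (hx : 0 ≤ x) (h1 : 0 < c - x) (h2 : c + x < 1) (hc : c ≤ 1 / 2) :
    Ps (c + x) ^ 2 ≤ Ps (c - x) ^ 2 := by
  obtain ⟨a, b⟩ := K_comp hx h1 h2 hc
  nlinarith

theorem claim2 {c x : ℝ} (hx : 0 ≤ x) (h1 : 0 < c - x) (h2 : c + x < 1) (hc : c ≤ 1 / 2) :
    Iso (c + x) ^ 2 - Iso (c - x) ^ 2 ≤ 4 * x * (Iso c * (- Ps c)) := by
  have step : ∀ x', 0 ≤ x' → x' ≤ x →
      0 ≤ -(-2 * (Iso (c + x') * Ps (c + x')) + -(-(-2 * (Iso (c - x') * Ps (c - x'))))) +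
        (4 * (Iso c * (- Ps c))) := by
    intro x' hx' hxx
    refine nonneg_of_deriv (f := fun y => -(-2 * (Iso (c + y) * Ps (c + y)) +
      -(-(-2 * (Iso (c - y) * Ps (c - y))))) + (4 * (Iso c * (- Ps c))))
      (f' := fun y => -((2 * Ps (c + y) ^ 2 - 2) + -(-(-(2 * Ps (c - y) ^ 2 - 2))))) hx' ?_ ?_ ?_
    · simp only [add_zero, sub_zero]
      linarith
    · intro y hy
      obtain ⟨⟨a1, a2⟩, a3, a4⟩ := rng hx h1 h2 (y := y) ⟨hy.1, hy.2.trans hxx⟩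
      exact ((shift (f := fun v => -2 * (Iso v * Ps v)) (f' := fun v => 2 * Ps v ^ 2 - 2)
        (dJ' a1 a2)).add (shift' (f := fun v => -2 * (Iso v * Ps v))
        (f' := fun v => 2 * Ps v ^ 2 - 2) (dJ' a3 a4)).neg.neg).neg.add_const _
    · intro y hy
      have := K_comp' (c := c) (x := y) hy.1 (by linarith [hy.2]) (by linarith [hy.2]) hc
      linarith
  have := nonneg_of_deriv (f := fun y => -(Iso (c + y) ^ 2 + -(Iso (c - y) ^ 2)) +
      (4 * (Iso c * (- Ps c))) * y)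
    (f' := fun y => -(-2 * (Iso (c + y) * Ps (c + y)) + -(-(-2 * (Iso (c - y) * Ps (c - y))))) +
        (4 * (Iso c * (- Ps c))) * 1) hx ?_ ?_ ?_
  · linarith
  · simp only [add_zero, sub_zero]
    linarith
  · intro y hy
    obtain ⟨⟨a1, a2⟩, a3, a4⟩ := rng hx h1 h2 hy
    exact (((shift (f := fun v => Iso v ^ 2) (f' := fun v => -2 * (Iso v * Ps v)) (dJ a1 a2)).add
      (shift' (f := fun v => Iso v ^ 2) (f' := fun v => -2 * (Iso v * Ps v)) (dJ a3 a4)).neg).neg).add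
      ((hasDerivAt_id y).const_mul (4 * (Iso c * (- Ps c))))
  · intro y hy
    have := step y hy.1 hy.2
    linarith

theorem claim3 {c x : ℝ} (hx : 0 ≤ x) (h1 : 0 < c - x) (h2 : c + x < 1) (hc : c ≤ 1 / 2) :
    0 ≤ Iso (c + x) ^ 2 - Iso (c - x) ^ 2 := by
  have h3 := K_comp' hx h1 h2 hc
  have h4 : Iso (c - x) ≤ Iso (c + x) := by
    rw [Iso_eq h1 (by linarith), Iso_eq (by linarith) h2, φ_eq, φ_eq]
    have : Real.exp (-(Ps (c - x) ^ 2 / 2)) ≤ Real.exp (-(Ps (c + x) ^ 2 / 2)) :=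
      Real.exp_le_exp.2 (by linarith)
    gcongr
  have h5 := Iso_nonneg (c - x)
  nlinarith

theorem main_half {c x : ℝ} (hx : 0 ≤ x) (h1 : 0 < c - x) (h2 : c + x < 1) (hc : c ≤ 1 / 2) :
    Iso c ≤ (√(Iso (c + x) ^ 2 + x ^ 2) + √(Iso (c - x) ^ 2 + x ^ 2)) / 2 := by
  have a1 := claim1 hx h1 h2
  have a2 := claim2 hx h1 h2 hc
  have a3 := claim3 hx h1 h2 hc
  set u := Iso c with hu
  have hu0 : 0 ≤ u := Iso_nonneg c
  set α := Iso (c + x) ^ 2 + x ^ 2 with hα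
  set β := Iso (c - x) ^ 2 + x ^ 2 with hβ
  have hα0 : 0 ≤ α := by positivity
  have hβ0 : 0 ≤ β := by positivity
  set k := Ps c with hk
  have b1 : 2 * u ^ 2 + 2 * x ^ 2 * k ^ 2 ≤ α + β := by rw [hα, hβ]; linarith
  have b2 : (α - β) ^ 2 ≤ (4 * x * (u * (-k))) ^ 2 := by
    have e : α - β = Iso (c + x) ^ 2 - Iso (c - x) ^ 2 := by rw [hα, hβ]; ring
    rw [e]
    exact pow_le_pow_left₀ a3 a2 2
  have key : 4 * u ^ 2 ≤ (√α + √β) ^ 2 := by
    have e1 : (√α + √β) ^ 2 = α + β + 2 * √(α * β) := by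
      rw [Real.sqrt_mul hα0, add_sq, Real.sq_sqrt hα0, Real.sq_sqrt hβ0]
      ring
    rw [e1]
    rcases le_total (4 * u ^ 2) (α + β) with h | h
    · have := Real.sqrt_nonneg (α * β)
      linarith
    · have h3 : (4 * u ^ 2 - (α + β)) / 2 ≤ √(α * β) := by
        apply Real.le_sqrt_of_sq_le
        have h4 : 8 * u ^ 2 * (2 * u ^ 2 + 2 * x ^ 2 * k ^ 2) ≤ 8 * u ^ 2 * (α + β) :=
          mul_le_mul_of_nonneg_left b1 (by positivity)
        nlinarith
      linarith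
  have h5 : 2 * u ≤ √α + √β := by
    have h6 : (2 * u) ^ 2 ≤ (√α + √β) ^ 2 := by nlinarith
    exact (pow_le_pow_iff_left₀ (by positivity) (by positivity) two_ne_zero).1 h6
  linarith

theorem main_all {c x : ℝ} (hx : 0 ≤ x) (h1 : 0 < c - x) (h2 : c + x < 1) :
    Iso c ≤ (√(Iso (c + x) ^ 2 + x ^ 2) + √(Iso (c - x) ^ 2 + x ^ 2)) / 2 := by
  rcases le_total c (1 / 2) with hc | hc
  · exact main_half hx h1 h2 hc
  · have := main_half (c := 1 - c) hx (by linarith) (by linarith) (by linarith)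
    rw [Iso_symm] at this
    have e1 : 1 - c + x = 1 - (c - x) := by ring
    have e2 : 1 - c - x = 1 - (c + x) := by ring
    rw [e1, e2, Iso_symm, Iso_symm] at this
    linarith

end TP

/-- Bobkov's two point inequality for the Gaussian profile. -/
theorem two_point (a b : ℝ) (ha : a ∈ Ioo (0:ℝ) 1) (hb : b ∈ Ioo (0:ℝ) 1) :
    Iso ((a + b) / 2) ≤
      (√(Iso a ^ 2 + ((a - b) / 2) ^ 2) + √(Iso b ^ 2 + ((a - b) / 2) ^ 2)) / 2 := by
  rcases le_total b a with h | h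
  · have := TP.main_all (c := (a + b) / 2) (x := (a - b) / 2) (by linarith)
      (by have := hb.1; linarith) (by have := ha.2; linarith)
    have e1 : (a + b) / 2 + (a - b) / 2 = a := by ring
    have e2 : (a + b) / 2 - (a - b) / 2 = b := by ring
    rw [e1, e2] at this
    exact this
  · have := TP.main_all (c := (a + b) / 2) (x := (b - a) / 2) (by linarith)
      (by have := ha.1; linarith) (by have := hb.2; linarith)
    have e1 : (a + b) / 2 + (b - a) / 2 = b := by ring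
    have e2 : (a + b) / 2 - (b - a) / 2 = a := by ring
    have e3 : ((b - a) / 2) ^ 2 = ((a - b) / 2) ^ 2 := by ring
    rw [e1, e2, e3] at this
    linarith

end Pool.Agent.H62
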